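import Pool.Agent.Helper30.RT.Line

/-!
# RT: even sections of even line bundles over the punctured space
-/

set_option autoImplicit false

namespace Pool.Agent.Helper30.RT

open Topology Filter Module Matrix

variable {K : Type} [RCLike K]

theorem star_dot_self_ne {m : ℕ} {e : Fin m → K} (he : e ≠ 0) : star e ⬝ᵥ e ≠ 0 := by
  intro h
  apply he
  have h1 : ((∑ i, ‖e i‖ ^ 2 : ℝ) : K) = 0 := by
    rw [← h, dotProduct]
    push_cast
    refine Finset.sum_congr rfl fun i _ => ?_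
    rw [Pi.star_apply, RCLike.star_def, RCLike.conj_mul]
  have h2 : ∑ i, ‖e i‖ ^ 2 = 0 := by exact_mod_cast h1
  rw [Finset.sum_eq_zero_iff_of_nonneg (fun i _ => sq_nonneg _)] at h2
  funext i
  have := h2 i (Finset.mem_univ i)
  simpa using this

section Half
variable {V : Type} [NormedAddCommGroup V] [NormedSpace ℝ V] [FiniteDimensional ℝ V]

/-- An even line bundle on the punctured space `V × ℝ` has a section which is even or odd. -/
theorem exists_section_prod {m : ℕ} (hV : 3 ≤ finrank ℝ V)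
    (P : V × ℝ → Matrix (Fin m) (Fin m) K)
    (hPc : ContinuousOn P {0}ᶜ) (hP : ∀ z, z ≠ 0 → P z * P z = P z) (hP0 : ∀ z, z ≠ 0 → P z ≠ 0)
    (hcross : ∀ z, z ≠ 0 → ∀ e f : Fin m → K, e ≠ 0 → P z *ᵥ e = e → P z *ᵥ f = f →
      ∃ c : K, f = c • e) (heven : ∀ z, z ≠ 0 → P (-z) = P z)
    (hhom : ∀ z, z ≠ 0 → ∀ c : ℝ, 0 < c → P (c • z) = P z) :
    ∃ u : V × ℝ → Fin m → K, ContinuousOn u {0}ᶜ ∧ (∀ z, z ≠ 0 → u z ≠ 0 ∧ P z *ᵥ u z = u z) ∧
      ((∀ z, z ≠ 0 → u (-z) = u z) ∨ ∀ z, z ≠ 0 → u (-z) = -u z) := by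
  have hh0 : ∀ y : V, ((y, 1 - ‖y‖) : V × ℝ) ≠ 0 := by
    intro y h
    have h1 : y = 0 := congrArg Prod.fst h
    have h2 : 1 - ‖y‖ = 0 := congrArg Prod.snd h
    rw [h1, norm_zero, sub_zero] at h2
    exact one_ne_zero h2
  have hhc : Continuous fun y : V => ((y, 1 - ‖y‖) : V × ℝ) :=
    continuous_id.prodMk (continuous_const.sub continuous_norm)
  obtain ⟨e, hec, he⟩ := exists_sectionK (fun y : V => P (y, 1 - ‖y‖))
    ((hPc.comp_continuous hhc fun y => hh0 y).continuousOn) (fun y _ => hP _ (hh0 y))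
    (hP0 _ (hh0 0))
  set D := Metric.closedBall (0 : V) 1 with hD
  have hmem1 : ∀ y : V, ‖y‖ = 1 → y ∈ D := fun y hy => by
    rw [hD, mem_closedBall_zero_iff, hy]
  -- the transition function
  let w : V → V := fun y => ‖y‖⁻¹ • y
  have hw1 : ∀ y : V, y ≠ 0 → ‖w y‖ = 1 := by
    intro y hy
    show ‖‖y‖⁻¹ • y‖ = 1
    rw [norm_smul, norm_inv, norm_norm, inv_mul_cancel₀ (norm_ne_zero_iff.2 hy)]
  have hwneg : ∀ y : V, w (-y) = -w y := by
    intro y
    show ‖-y‖⁻¹ • -y = -(‖y‖⁻¹ • y)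
    rw [norm_neg, smul_neg]
  have hww : ∀ y : V, ‖y‖ = 1 → w y = y := by
    intro y hy
    show ‖y‖⁻¹ • y = y
    rw [hy, inv_one, one_smul]
  have hwc : ContinuousOn w {0}ᶜ :=
    (continuous_norm.continuousOn.inv₀ fun y hy => norm_ne_zero_iff.2 hy).smul continuousOn_id
  let lam : V → K := fun y => (star (e (w y)) ⬝ᵥ e (-w y)) / (star (e (w y)) ⬝ᵥ e (w y))
  have hlam : ∀ y : V, y ≠ 0 → e (-w y) = lam y • e (w y) := by
    intro y hy
    have h1 := he (w y) (hmem1 _ (hw1 y hy))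
    have h2 := he (-w y) (hmem1 _ (by rw [norm_neg, hw1 y hy]))
    have h4 : ((-w y, 1 - ‖-w y‖) : V × ℝ) = -(w y, 1 - ‖w y‖) := by
      rw [norm_neg, hw1 y hy, sub_self]
      exact Prod.ext rfl neg_zero.symm
    have h3 := h2.2
    rw [h4, heven _ (hh0 (w y))] at h3
    obtain ⟨c, hc⟩ := hcross _ (hh0 (w y)) _ _ h1.1 h1.2 h3
    have h5 : lam y = c := by
      show (star (e (w y)) ⬝ᵥ e (-w y)) / (star (e (w y)) ⬝ᵥ e (w y)) = c
      rw [hc, dotProduct_smul, smul_eq_mul, mul_div_cancel_right₀ _ (star_dot_self_ne h1.1)]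
    rw [h5]
    exact hc
  have hlam0 : ∀ y : V, y ≠ 0 → lam y ≠ 0 := by
    intro y hy h
    have h1 := hlam y hy
    rw [h, zero_smul] at h1
    exact (he (-w y) (hmem1 _ (by rw [norm_neg, hw1 y hy]))).1 h1
  have hlam2 : ∀ y : V, y ≠ 0 → lam (-y) * lam y = 1 := by
    intro y hy
    have h1 := hlam y hy
    have h2 := hlam (-y) (neg_ne_zero.2 hy)
    rw [hwneg, neg_neg, h1, smul_smul] at h2
    have h3 : (lam (-y) * lam y - 1) • e (w y) = 0 := by
      rw [sub_smul, one_smul, ← h2, sub_self]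
    rcases smul_eq_zero.1 h3 with h4 | h4
    · exact sub_eq_zero.1 h4
    · exact absurd h4 (he (w y) (hmem1 _ (hw1 y hy))).1
  have hlamc : ContinuousOn lam {0}ᶜ := by
    have h1 : ContinuousOn (fun y => e (w y)) {0}ᶜ :=
      hec.comp hwc fun y hy => hmem1 _ (hw1 y hy)
    have h2 : ContinuousOn (fun y => e (-w y)) {0}ᶜ :=
      hec.comp hwc.neg fun y hy => hmem1 _ (by rw [norm_neg, hw1 y hy])
    have h3 : ∀ i, ContinuousOn (fun y => e (w y) i) {0}ᶜ := fun i =>
      (continuous_apply i).comp_continuousOn h1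
    have h4 : ∀ i, ContinuousOn (fun y => e (-w y) i) {0}ᶜ := fun i =>
      (continuous_apply i).comp_continuousOn h2
    have h5 : ∀ i, ContinuousOn (fun y => star (e (w y) i)) {0}ᶜ := fun i =>
      continuous_star.comp_continuousOn (h3 i)
    refine ContinuousOn.div ?_ ?_ ?_
    · exact continuousOn_finsetSum _ fun i _ => (h5 i).mul (h4 i)
    · exact continuousOn_finsetSum _ fun i _ => (h5 i).mul (h3 i)
    · intro y hy
      exact star_dot_self_ne (he (w y) (hmem1 _ (hw1 y hy))).1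
  obtain ⟨μ, hμc, hμ0, hμ⟩ := exists_normal hV lam hlamc hlam0 hlam2
  -- the normalised section over the half sphere
  let g : V → Fin m → K := fun y => μ y • e y
  have hgc : ContinuousOn g D := hμc.continuousOn.smul hec
  have hg0 : ∀ y ∈ D, g y ≠ 0 := fun y hy => smul_ne_zero (hμ0 y) (he y hy).1
  have hgP : ∀ y ∈ D, P (y, 1 - ‖y‖) *ᵥ g y = g y := by
    intro y hy
    show P (y, 1 - ‖y‖) *ᵥ (μ y • e y) = μ y • e y
    rw [mulVec_smul, (he y hy).2]
  have hgs : (∀ y : V, ‖y‖ = 1 → g (-y) = g y) ∨ ∀ y : V, ‖y‖ = 1 → g (-y) = -g y := by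
    have h1 : ∀ y : V, ‖y‖ = 1 → g (-y) = (μ (-y) * lam y) • e y := by
      intro y hy
      have hy0 : y ≠ 0 := by
        intro h
        rw [h, norm_zero] at hy
        exact zero_ne_one hy
      have h2 := hlam y hy0
      rw [hww y hy] at h2
      show μ (-y) • e (-y) = _
      rw [h2, smul_smul]
    rcases hμ with h | h
    · left
      intro y hy
      rw [h1 y hy, h y hy]
    · right
      intro y hy
      rw [h1 y hy, h y hy, neg_smul]
  -- the extension
  let s : V × ℝ → V := fun z => (‖z.1‖ + |z.2|)⁻¹ • z.1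
  have hpos : ∀ z : V × ℝ, z ≠ 0 → 0 < ‖z.1‖ + |z.2| := by
    intro z hz
    rcases (add_nonneg (norm_nonneg z.1) (abs_nonneg z.2)).eq_or_lt with h | h
    · exfalso
      apply hz
      have h1 : ‖z.1‖ = 0 := le_antisymm (by linarith [abs_nonneg z.2]) (norm_nonneg _)
      have h2 : |z.2| = 0 := le_antisymm (by linarith [norm_nonneg z.1]) (abs_nonneg _)
      exact Prod.ext (norm_eq_zero.1 h1) (abs_eq_zero.1 h2)
    · exact h
  have hsD : ∀ z : V × ℝ, z ≠ 0 → s z ∈ D := by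
    intro z hz
    have h1 := hpos z hz
    rw [hD, mem_closedBall_zero_iff, norm_smul, norm_inv, Real.norm_of_nonneg h1.le,
      inv_mul_le_iff₀ h1, mul_one]
    linarith [abs_nonneg z.2]
  have hsc : ContinuousOn s {0}ᶜ := by
    refine ContinuousOn.smul (ContinuousOn.inv₀ ?_ fun z hz => (hpos z hz).ne')
      continuous_fst.continuousOn
    exact (continuous_fst.norm.add continuous_snd.abs).continuousOn
  have hneg : ∀ z : V × ℝ, s (-z) = -s z := by
    intro z
    show (‖-z.1‖ + |-z.2|)⁻¹ • -z.1 = -((‖z.1‖ + |z.2|)⁻¹ • z.1)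
    rw [norm_neg, abs_neg, smul_neg]
  have hs1 : ∀ z : V × ℝ, z ≠ 0 → z.2 = 0 → ‖s z‖ = 1 := by
    intro z hz h2
    have h1 := hpos z hz
    show ‖(‖z.1‖ + |z.2|)⁻¹ • z.1‖ = 1
    rw [h2, abs_zero, add_zero] at h1 ⊢
    rw [norm_smul, norm_inv, norm_norm, inv_mul_cancel₀ h1.ne']
  have hnD : ∀ z : V × ℝ, z ≠ 0 → -s z ∈ D := by
    intro z hz
    rw [← hneg]
    exact hsD _ (neg_ne_zero.2 hz)
  -- the point of the half sphere
  have hsP : ∀ z : V × ℝ, z ≠ 0 → 0 ≤ z.2 → P (s z, 1 - ‖s z‖) = P z := by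
    intro z hz h
    have h1 := hpos z hz
    have h2 : ((s z, 1 - ‖s z‖) : V × ℝ) = (‖z.1‖ + |z.2|)⁻¹ • z := by
      refine Prod.ext rfl ?_
      show 1 - ‖(‖z.1‖ + |z.2|)⁻¹ • z.1‖ = (‖z.1‖ + |z.2|)⁻¹ * z.2
      rw [norm_smul, norm_inv, Real.norm_of_nonneg h1.le, abs_of_nonneg h]
      rw [abs_of_nonneg h] at h1
      field_simp
      ring
    rw [h2, hhom z hz _ (inv_pos.2 h1)]
  have key : ∀ σ : ℝ, (σ = 1 ∨ σ = -1) → (∀ y : V, ‖y‖ = 1 → g (-y) = σ • g y) →
      ∃ u : V × ℝ → Fin m → K, ContinuousOn u {0}ᶜ ∧ (∀ z, z ≠ 0 → u z ≠ 0 ∧ P z *ᵥ u z = u z) ∧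
      ∀ z, z ≠ 0 → u (-z) = σ • u z := by
    intro σ hσ hodd
    have hσσ : σ * σ = 1 := by rcases hσ with rfl | rfl <;> norm_num
    have hσ0 : σ ≠ 0 := by rcases hσ with rfl | rfl <;> norm_num
    let G : V × ℝ → Fin m → K := fun z => if 0 ≤ z.2 then g (s z) else σ • g (-s z)
    refine ⟨G, ?_, ?_, ?_⟩
    · rw [continuousOn_iff_continuous_domRestrict]
      have hc : ∀ z : (({0}ᶜ : Set (V × ℝ))), (z : V × ℝ) ≠ 0 := fun z => z.2
      have h1 : Continuous fun z : (({0}ᶜ : Set (V × ℝ))) => s z :=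
        hsc.comp_continuous continuous_subtype_val fun z => z.2
      have h2 : Continuous fun z : (({0}ᶜ : Set (V × ℝ))) => g (s z) :=
        hgc.comp_continuous h1 fun z => hsD z (hc z)
      have h3 : Continuous fun z : (({0}ᶜ : Set (V × ℝ))) => σ • g (-s z) :=
        (hgc.comp_continuous h1.neg fun z => hnD z (hc z)).const_smul σ
      have h4 : Continuous fun z : (({0}ᶜ : Set (V × ℝ))) =>
          if 0 ≤ (z : V × ℝ).2 then g (s z) else σ • g (-s z) := by
        refine Continuous.if_le h2 h3 continuous_const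
          (continuous_snd.comp continuous_subtype_val) ?_
        intro z hz
        rw [hodd _ (hs1 z (hc z) hz.symm), smul_smul, hσσ, one_smul]
      exact h4
    · intro z hz
      by_cases h : 0 ≤ z.2
      · simp only [G, if_pos h]
        refine ⟨hg0 _ (hsD z hz), ?_⟩
        rw [← hsP z hz h]
        exact hgP _ (hsD z hz)
      · simp only [G, if_neg h]
        refine ⟨smul_ne_zero hσ0 (hg0 _ (hnD z hz)), ?_⟩
        have h1 := hsP (-z) (neg_ne_zero.2 hz) (by
          show 0 ≤ -z.2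
          linarith [not_le.1 h])
        rw [hneg, heven z hz] at h1
        rw [mulVec_smul, ← h1, hgP _ (hnD z hz)]
    · intro z hz
      rcases lt_trichotomy z.2 0 with h | h | h
      · have h1 : 0 ≤ (-z).2 := by
          show 0 ≤ -z.2
          linarith
        simp only [G, if_pos h1, if_neg (not_le.2 h), hneg, smul_smul, hσσ, one_smul]
      · have h1 : 0 ≤ (-z).2 := by
          show 0 ≤ -z.2
          rw [h, neg_zero]
        simp only [G, if_pos h1, if_pos h.ge, hneg]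
        exact hodd _ (hs1 z hz h)
      · have h1 : ¬ 0 ≤ (-z).2 := by
          show ¬ 0 ≤ -z.2
          linarith
        simp only [G, if_neg h1, if_pos h.le, hneg, neg_neg]
  rcases hgs with h | h
  · obtain ⟨u, h1, h2, h3⟩ := key 1 (Or.inl rfl) fun y hy => by rw [one_smul, h y hy]
    exact ⟨u, h1, h2, Or.inl fun z hz => by rw [h3 z hz, one_smul]⟩
  · obtain ⟨u, h1, h2, h3⟩ := key (-1) (Or.inr rfl) fun y hy => by rw [neg_smul, one_smul, h y hy]
    exact ⟨u, h1, h2, Or.inr fun z hz => by rw [h3 z hz, neg_smul, one_smul]⟩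

end Half

/-- An even line bundle on a punctured space, of dimension greater than that of the fibre, has an
even section. -/
theorem exists_line {m : ℕ} {E : Type} [NormedAddCommGroup E] [NormedSpace ℝ E]
    [FiniteDimensional ℝ E] (hE4 : 4 ≤ finrank ℝ E) (hEm : m * finrank ℝ K < finrank ℝ E)
    (P : E → Matrix (Fin m) (Fin m) K)
    (hPc : ContinuousOn P {0}ᶜ) (hP : ∀ z, z ≠ 0 → P z * P z = P z) (hP0 : ∀ z, z ≠ 0 → P z ≠ 0)
    (hcross : ∀ z, z ≠ 0 → ∀ e f : Fin m → K, e ≠ 0 → P z *ᵥ e = e → P z *ᵥ f = f →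
      ∃ c : K, f = c • e) (heven : ∀ z, z ≠ 0 → P (-z) = P z)
    (hhom : ∀ z, z ≠ 0 → ∀ c : ℝ, 0 < c → P (c • z) = P z) :
    ∃ u : E → Fin m → K, ContinuousOn u {0}ᶜ ∧
      ∀ z, z ≠ 0 → u z ≠ 0 ∧ P z *ᵥ u z = u z ∧ u (-z) = u z := by
  obtain ⟨k, hk⟩ : ∃ k, finrank ℝ E = k + 1 := ⟨finrank ℝ E - 1, by omega⟩
  have hfr : finrank ℝ ((Fin k → ℝ) × ℝ) = finrank ℝ E := by
    rw [Module.finrank_prod, Module.finrank_fin_fun, Module.finrank_self, hk]
  let L : ((Fin k → ℝ) × ℝ) ≃L[ℝ] E := ContinuousLinearEquiv.ofFinrankEq hfr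
  have hL0 : ∀ z, z ≠ 0 → L z ≠ 0 := fun z hz h => hz (L.map_eq_zero_iff.1 h)
  have hL0' : ∀ z, z ≠ 0 → L.symm z ≠ 0 := fun z hz h => hz (L.symm.map_eq_zero_iff.1 h)
  obtain ⟨u, huc, hu, hpar⟩ := exists_section_prod (K := K) (V := Fin k → ℝ)
    (by rw [Module.finrank_fin_fun]; omega) (fun z => P (L z))
    (hPc.comp L.continuous.continuousOn fun z hz => hL0 z hz)
    (fun z hz => hP _ (hL0 z hz)) (fun z hz => hP0 _ (hL0 z hz))
    (fun z hz => hcross _ (hL0 z hz)) (fun z hz => by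
      show P (L (-z)) = P (L z)
      rw [map_neg, heven _ (hL0 z hz)])
    (fun z hz c hc => by
      show P (L (c • z)) = P (L z)
      rw [map_smul, hhom _ (hL0 z hz) c hc])
  have huc' : ContinuousOn (fun z => u (L.symm z)) {0}ᶜ :=
    huc.comp L.symm.continuous.continuousOn fun z hz => hL0' z hz
  rcases hpar with hpar | hpar
  · refine ⟨fun z => u (L.symm z), huc', fun z hz => ?_⟩
    have h1 := hu _ (hL0' z hz)
    refine ⟨h1.1, ?_, ?_⟩
    · have h2 := h1.2
      rwa [L.apply_symm_apply] at h2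
    · show u (L.symm (-z)) = u (L.symm z)
      rw [map_neg, hpar _ (hL0' z hz)]
  · exfalso
    have h5 := Pool.Agent.Helper29.CKP.bu (fun z => u (L.symm z)) huc' (fun z hz => by
      show u (L.symm (-z)) = -u (L.symm z)
      rw [map_neg, hpar _ (hL0' z hz)]) fun z hz => (hu _ (hL0' z hz)).1
    rw [Module.finrank_pi_fintype] at h5
    simp only [Finset.sum_const, Finset.card_univ, Fintype.card_fin, smul_eq_mul] at h5
    omega

end Pool.Agent.Helper30.RT
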