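import Pool.Agent.Helper20.CK3.Stmts
import Pool.Agent.Helper30.RT.Line2

/-!
# RT: the projections on the eigenlines of the Gram matrix
-/

set_option autoImplicit false

namespace Pool.Agent.Helper30.RT

open Topology Filter Module Matrix Pool.Agent.Helper20.CK3 Pool.Agent.Helper20.CKP

variable {K : Type} [RCLike K]

theorem dg_apply (n : ℕ) (s : Fin 3 → ℝ) (i : Fin 3) (j : Fin n) :
    dg K n s i j = if (i : ℕ) = (j : ℕ) then ((s i : ℝ) : K) else 0 := rfl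

theorem gram_dg {n : ℕ} (hn : 3 ≤ n) (s : Fin 3 → ℝ) :
    dg K n s * (dg K n s)ᴴ = diagonal fun l => ((s l ^ 2 : ℝ) : K) := by
  ext i j
  rw [Matrix.mul_apply]
  rw [Finset.sum_eq_single (Fin.castLE hn i)]
  · rw [conjTranspose_apply, dg_apply, dg_apply,
      if_pos (show (i : ℕ) = ((Fin.castLE hn i : Fin n) : ℕ) from rfl)]
    by_cases h : i = j
    · subst h
      rw [if_pos (show (i : ℕ) = ((Fin.castLE hn i : Fin n) : ℕ) from rfl), diagonal_apply_eq,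
        RCLike.star_def, RCLike.conj_ofReal, ← RCLike.ofReal_mul, sq]
    · rw [if_neg (show ¬ (j : ℕ) = ((Fin.castLE hn i : Fin n) : ℕ) from
        fun e => h (Fin.ext e.symm)), star_zero, mul_zero, diagonal_apply_ne _ h]
  · intro k _ hk
    rw [dg_apply, if_neg (show ¬ (i : ℕ) = (k : ℕ) from fun e => hk (Fin.ext e.symm)), zero_mul]
  · intro h
    exact absurd (Finset.mem_univ _) h

theorem gram_eq {n : ℕ} (hn : 3 ≤ n) {B : Matrix (Fin 3) (Fin n) K} {s : Fin 3 → ℝ}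
    {U : Matrix (Fin 3) (Fin 3) K} {W : Matrix (Fin n) (Fin n) K} (hW : W * Wᴴ = 1)
    (e : B = U * dg K n s * W) :
    B * Bᴴ = U * (diagonal fun l => ((s l ^ 2 : ℝ) : K)) * Uᴴ := by
  rw [e, conjTranspose_mul, conjTranspose_mul]
  calc U * dg K n s * W * (Wᴴ * ((dg K n s)ᴴ * Uᴴ)) =
      U * (dg K n s * (W * Wᴴ) * (dg K n s)ᴴ) * Uᴴ := by simp only [Matrix.mul_assoc]
    _ = _ := by rw [hW, Matrix.mul_one, gram_dg hn]

/-- the projection, as a polynomial -/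
noncomputable def prj (i j k : Fin 3) (s : Fin 3 → ℝ) (A : Matrix (Fin 3) (Fin 3) K) :
    Matrix (Fin 3) (Fin 3) K :=
  (((s i ^ 2 - s j ^ 2) * (s i ^ 2 - s k ^ 2) : ℝ) : K)⁻¹ •
    ((A - ((s j ^ 2 : ℝ) : K) • 1) * (A - ((s k ^ 2 : ℝ) : K) • 1))

theorem prj_eq {i j k : Fin 3} {s : Fin 3 → ℝ} {A U : Matrix (Fin 3) (Fin 3) K}
    (hU : U * Uᴴ = 1) (hA : A = U * (diagonal fun l => ((s l ^ 2 : ℝ) : K)) * Uᴴ)
    (hij : s i ^ 2 ≠ s j ^ 2) (hik : s i ^ 2 ≠ s k ^ 2) (hall : ∀ l, l = i ∨ l = j ∨ l = k) :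
    prj i j k s A = U * (diagonal (Pi.single i 1 : Fin 3 → K)) * Uᴴ := by
  have hU' : Uᴴ * U = 1 := mul_eq_one_comm.1 hU
  have h1 : ∀ c : K, A - c • 1 = U * (diagonal fun l => ((s l ^ 2 : ℝ) : K) - c) * Uᴴ := by
    intro c
    have h2 : (diagonal fun l => ((s l ^ 2 : ℝ) : K) - c) =
        (diagonal fun l => ((s l ^ 2 : ℝ) : K)) - c • (1 : Matrix (Fin 3) (Fin 3) K) := by
      ext a b
      by_cases h : a = b
      · subst h
        simp
      · simp [h]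
    rw [h2, Matrix.mul_sub, Matrix.sub_mul, ← hA, Matrix.mul_smul, Matrix.mul_one,
      Matrix.smul_mul, hU]
  have hne : (((s i ^ 2 - s j ^ 2) * (s i ^ 2 - s k ^ 2) : ℝ) : K) ≠ 0 := by
    rw [Ne, RCLike.ofReal_eq_zero]
    exact mul_ne_zero (sub_ne_zero.2 hij) (sub_ne_zero.2 hik)
  rw [prj, h1, h1]
  have h3 : U * (diagonal fun l => ((s l ^ 2 : ℝ) : K) - ((s j ^ 2 : ℝ) : K)) * Uᴴ *
      (U * (diagonal fun l => ((s l ^ 2 : ℝ) : K) - ((s k ^ 2 : ℝ) : K)) * Uᴴ) =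
      U * ((((s i ^ 2 - s j ^ 2) * (s i ^ 2 - s k ^ 2) : ℝ) : K) •
        diagonal (Pi.single i 1 : Fin 3 → K)) * Uᴴ := by
    calc U * (diagonal fun l => ((s l ^ 2 : ℝ) : K) - ((s j ^ 2 : ℝ) : K)) * Uᴴ *
      (U * (diagonal fun l => ((s l ^ 2 : ℝ) : K) - ((s k ^ 2 : ℝ) : K)) * Uᴴ) =
        U * ((diagonal fun l => ((s l ^ 2 : ℝ) : K) - ((s j ^ 2 : ℝ) : K)) * (Uᴴ * U) *
          (diagonal fun l => ((s l ^ 2 : ℝ) : K) - ((s k ^ 2 : ℝ) : K))) * Uᴴ := by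
          simp only [Matrix.mul_assoc]
      _ = _ := by
        rw [hU', Matrix.mul_one, diagonal_mul_diagonal, ← diagonal_smul]
        congr 2
        congr 1
        funext l
        rw [Pi.smul_apply, smul_eq_mul]
        by_cases hl : l = i
        · subst hl
          rw [Pi.single_eq_same, mul_one]
          push_cast
          ring
        · rw [Pi.single_eq_of_ne hl, mul_zero]
          rcases hall l with h | h | h
          · exact absurd h hl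
          · rw [h, sub_self, zero_mul]
          · rw [h, sub_self, mul_zero]
  rw [h3, Matrix.mul_smul, Matrix.smul_mul, smul_smul, inv_mul_cancel₀ hne, one_smul]

section Line
variable {i : Fin 3} {U : Matrix (Fin 3) (Fin 3) K}

theorem single_mulVec (i : Fin 3) (v : Fin 3 → K) :
    diagonal (Pi.single i 1 : Fin 3 → K) *ᵥ v = v i • (Pi.single i 1 : Fin 3 → K) := by
  funext l
  rw [mulVec_diagonal, Pi.smul_apply, smul_eq_mul]
  by_cases h : l = i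
  · subst h
    rw [Pi.single_eq_same, one_mul, mul_one]
  · rw [Pi.single_eq_of_ne h, zero_mul, mul_zero]

theorem line_idem (hU : U * Uᴴ = 1) :
    U * diagonal (Pi.single i 1 : Fin 3 → K) * Uᴴ * (U * diagonal (Pi.single i 1 : Fin 3 → K) * Uᴴ) =
      U * diagonal (Pi.single i 1 : Fin 3 → K) * Uᴴ := by
  have hU' : Uᴴ * U = 1 := mul_eq_one_comm.1 hU
  calc U * diagonal (Pi.single i 1 : Fin 3 → K) * Uᴴ *
      (U * diagonal (Pi.single i 1 : Fin 3 → K) * Uᴴ) =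
      U * (diagonal (Pi.single i 1 : Fin 3 → K) * (Uᴴ * U) *
        diagonal (Pi.single i 1 : Fin 3 → K)) * Uᴴ := by simp only [Matrix.mul_assoc]
    _ = _ := by
      rw [hU', Matrix.mul_one, diagonal_mul_diagonal]
      congr 2
      congr 1
      funext l
      by_cases h : l = i
      · subst h
        rw [Pi.single_eq_same, mul_one]
      · rw [Pi.single_eq_of_ne h, mul_zero]

/-- a vector of the line -/
theorem line_mem (hU : U * Uᴴ = 1) {e : Fin 3 → K}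
    (h : (U * diagonal (Pi.single i 1 : Fin 3 → K) * Uᴴ) *ᵥ e = e) :
    e = (Uᴴ *ᵥ e) i • (U *ᵥ (Pi.single i 1 : Fin 3 → K)) := by
  conv_lhs => rw [← h]
  rw [← mulVec_mulVec, ← mulVec_mulVec, single_mulVec, mulVec_smul]

theorem line_ne (hU : U * Uᴴ = 1) : U * diagonal (Pi.single i 1 : Fin 3 → K) * Uᴴ ≠ 0 := by
  intro h
  have hU' : Uᴴ * U = 1 := mul_eq_one_comm.1 hU
  have h1 : Uᴴ * (U * diagonal (Pi.single i 1 : Fin 3 → K) * Uᴴ) * U =
      diagonal (Pi.single i 1 : Fin 3 → K) := by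
    calc Uᴴ * (U * diagonal (Pi.single i 1 : Fin 3 → K) * Uᴴ) * U =
        (Uᴴ * U) * diagonal (Pi.single i 1 : Fin 3 → K) * (Uᴴ * U) := by
          simp only [Matrix.mul_assoc]
      _ = _ := by rw [hU', Matrix.one_mul, Matrix.mul_one]
  rw [h, Matrix.mul_zero, Matrix.zero_mul] at h1
  have h2 := congrFun (congrFun h1 i) i
  rw [diagonal_apply_eq, Pi.single_eq_same, Matrix.zero_apply] at h2
  exact zero_ne_one h2

theorem line_cross (hU : U * Uᴴ = 1) {e f : Fin 3 → K} (he : e ≠ 0)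
    (h : (U * diagonal (Pi.single i 1 : Fin 3 → K) * Uᴴ) *ᵥ e = e)
    (h' : (U * diagonal (Pi.single i 1 : Fin 3 → K) * Uᴴ) *ᵥ f = f) : ∃ c : K, f = c • e := by
  have h1 := line_mem hU h
  have h2 := line_mem hU h'
  have h3 : (Uᴴ *ᵥ e) i ≠ 0 := by
    intro h0
    rw [h0, zero_smul] at h1
    exact he h1
  refine ⟨(Uᴴ *ᵥ f) i / (Uᴴ *ᵥ e) i, ?_⟩
  have h4 : ((Uᴴ *ᵥ f) i / (Uᴴ *ᵥ e) i) • ((Uᴴ *ᵥ e) i • (U *ᵥ (Pi.single i 1 : Fin 3 → K))) =
      (Uᴴ *ᵥ f) i • (U *ᵥ (Pi.single i 1 : Fin 3 → K)) := by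
    rw [smul_smul, div_mul_cancel₀ _ h3]
  rw [← h1] at h4
  rw [h4]
  exact h2

end Line

/-- The even continuous section of the eigenline number `i` of the Gram matrix of an odd map, on
`Fin m → ℝ`, for the map made homogeneous. -/
theorem exists_eigen {n m : ℕ} (hn : 3 ≤ n) (sg : Matrix (Fin 3) (Fin n) K → Fin 3 → ℝ)
    (hsgc : Continuous sg) (hsg : ∀ B, IsSing B (sg B)) (huniq : ∀ B s, IsSing B s → s = sg B)
    (hm4 : 4 ≤ m) (hm : 3 * finrank ℝ K < m)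
    (F : (Fin m → ℝ) → Matrix (Fin 3) (Fin n) K) (hF : ContinuousOn F {0}ᶜ)
    (hodd : ∀ x, x ≠ 0 → F (-x) = -F x)
    (hhom : ∀ x, x ≠ 0 → ∀ c : ℝ, 0 < c → F (c • x) = F x) (i j k : Fin 3)
    (hall : ∀ l, l = i ∨ l = j ∨ l = k)
    (hij : ∀ x, x ≠ 0 → sg (F x) i ^ 2 ≠ sg (F x) j ^ 2)
    (hik : ∀ x, x ≠ 0 → sg (F x) i ^ 2 ≠ sg (F x) k ^ 2) :
    ∃ u : (Fin m → ℝ) → Fin 3 → K, ContinuousOn u {0}ᶜ ∧ ∀ x, x ≠ 0 → u x ≠ 0 ∧ u (-x) = u x ∧
      ∃ (U : Matrix (Fin 3) (Fin 3) K) (W : Matrix (Fin n) (Fin n) K) (c : K), U * Uᴴ = 1 ∧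
        W * Wᴴ = 1 ∧ F x = U * dg K n (sg (F x)) * W ∧ c ≠ 0 ∧
        u x = c • (U *ᵥ (Pi.single i 1 : Fin 3 → K)) := by
  -- singular values of `-B`
  have hsneg : ∀ B, sg (-B) = sg B := by
    intro B
    refine (huniq (-B) (sg B) ⟨(hsg B).anti, (hsg B).nonneg, ?_⟩).symm
    obtain ⟨U, W, hU, hW, e⟩ := (hsg B).conj
    refine ⟨-U, W, ?_, hW, ?_⟩
    · rw [conjTranspose_neg, neg_mul_neg, hU]
    · rw [Matrix.neg_mul, Matrix.neg_mul, ← e]
  have hPx : ∀ x, x ≠ 0 → ∃ (U : Matrix (Fin 3) (Fin 3) K) (W : Matrix (Fin n) (Fin n) K),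
      U * Uᴴ = 1 ∧ W * Wᴴ = 1 ∧ F x = U * dg K n (sg (F x)) * W ∧
      prj i j k (sg (F x)) (F x * (F x)ᴴ) =
        U * (diagonal (Pi.single i 1 : Fin 3 → K)) * Uᴴ := by
    intro x hx
    obtain ⟨U, W, hU, hW, e⟩ := (hsg (F x)).conj
    exact ⟨U, W, hU, hW, e, prj_eq hU (gram_eq hn hW e) (hij x hx) (hik x hx) hall⟩
  have hs0 : ContinuousOn (fun x => sg (F x)) {0}ᶜ := hsgc.comp_continuousOn hF
  have hs2 : ∀ l, ContinuousOn (fun x => sg (F x) l ^ 2) {0}ᶜ := fun l =>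
    (continuousOn_pi.1 hs0 l).pow 2
  have hs2K : ∀ l, ContinuousOn (fun x => ((sg (F x) l ^ 2 : ℝ) : K)) {0}ᶜ := fun l =>
    RCLike.continuous_ofReal.comp_continuousOn (hs2 l)
  have hA : ContinuousOn (fun x => F x * (F x)ᴴ) {0}ᶜ := by
    have h1 : Continuous fun B : Matrix (Fin 3) (Fin n) K => B * Bᴴ :=
      Continuous.matrix_mul continuous_id (Continuous.matrix_conjTranspose continuous_id)
    exact h1.comp_continuousOn hF
  have hPc : ContinuousOn (fun x => (prj i j k (sg (F x)) (F x * (F x)ᴴ) :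
      Matrix (Fin 3) (Fin 3) K)) {0}ᶜ := by
    have hc : ContinuousOn (fun x => ((((sg (F x) i ^ 2 - sg (F x) j ^ 2) *
        (sg (F x) i ^ 2 - sg (F x) k ^ 2) : ℝ) : K))⁻¹) {0}ᶜ := by
      refine ContinuousOn.inv₀ ?_ ?_
      · exact (RCLike.continuous_ofReal (K := K)).comp_continuousOn
          (((hs2 i).sub (hs2 j)).mul ((hs2 i).sub (hs2 k)))
      · intro x hx
        rw [Ne, RCLike.ofReal_eq_zero]
        exact mul_ne_zero (sub_ne_zero.2 (hij x hx)) (sub_ne_zero.2 (hik x hx))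
    refine ContinuousOn.smul hc ?_
    · have h1 : ∀ l, ContinuousOn (fun x => F x * (F x)ᴴ -
          ((sg (F x) l ^ 2 : ℝ) : K) • (1 : Matrix (Fin 3) (Fin 3) K)) {0}ᶜ := fun l =>
        hA.sub ((hs2K l).smul continuousOn_const)
      have h2 : Continuous fun p : Matrix (Fin 3) (Fin 3) K × Matrix (Fin 3) (Fin 3) K =>
          p.1 * p.2 := continuous_fst.matrix_mul continuous_snd
      exact h2.comp_continuousOn ((h1 j).prodMk (h1 k))
  obtain ⟨u, huc, hu⟩ := exists_line (K := K) (m := 3) (E := Fin m → ℝ)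
    (by rw [finrank_fin_fun]; exact hm4) (by rw [finrank_fin_fun]; exact hm)
    (fun x => prj i j k (sg (F x)) (F x * (F x)ᴴ)) hPc
    (fun x hx => by
      obtain ⟨U, W, hU, hW, e, h⟩ := hPx x hx
      show prj i j k (sg (F x)) (F x * (F x)ᴴ) * prj i j k (sg (F x)) (F x * (F x)ᴴ) =
        prj i j k (sg (F x)) (F x * (F x)ᴴ)
      rw [h, line_idem hU])
    (fun x hx => by
      obtain ⟨U, W, hU, hW, e, h⟩ := hPx x hx
      show prj i j k (sg (F x)) (F x * (F x)ᴴ) ≠ 0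
      rw [h]
      exact line_ne hU)
    (fun x hx e f he h1 h2 => by
      obtain ⟨U, W, hU, hW, e', h⟩ := hPx x hx
      have h3 : prj i j k (sg (F x)) (F x * (F x)ᴴ) *ᵥ e = e := h1
      have h4 : prj i j k (sg (F x)) (F x * (F x)ᴴ) *ᵥ f = f := h2
      rw [h] at h3 h4
      exact line_cross hU he h3 h4)
    (fun x hx => by
      show prj i j k (sg (F (-x))) (F (-x) * (F (-x))ᴴ) = prj i j k (sg (F x)) (F x * (F x)ᴴ)
      rw [hodd x hx, hsneg, conjTranspose_neg, Matrix.neg_mul, Matrix.mul_neg, neg_neg])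
    (fun x hx c hc => by
      show prj i j k (sg (F (c • x))) (F (c • x) * (F (c • x))ᴴ) =
        prj i j k (sg (F x)) (F x * (F x)ᴴ)
      rw [hhom x hx c hc])
  refine ⟨u, huc, fun x hx => ?_⟩
  obtain ⟨h1, h2, h3⟩ := hu x hx
  obtain ⟨U, W, hU, hW, e, h⟩ := hPx x hx
  have h4 : prj i j k (sg (F x)) (F x * (F x)ᴴ) *ᵥ u x = u x := h2
  rw [h] at h4
  have h5 := line_mem hU h4
  refine ⟨h1, h3, U, W, (Uᴴ *ᵥ u x) i, hU, hW, e, ?_, h5⟩
  intro h0
  rw [h0, zero_smul] at h5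
  exact h1 h5

end Pool.Agent.Helper30.RT
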