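import Pool.Agent.Helper30.RT.T3
import Pool.Agent.Helper30.RT.Proj

/-!
# RT: odd maps which miss the first or the second wall
-/

set_option autoImplicit false

namespace Pool.Agent.Helper30.RT

open Topology Filter Module Matrix Finset Pool.Agent.Helper20.CK3 Pool.Agent.Helper20.CKP
  Pool.Agent.Helper29.ZBU

variable {K : Type} [RCLike K]

/-- the homogeneous map -/
theorem exists_hom {n m : ℕ} {E : Type} [AddCommGroup E] [Module ℝ E] [TopologicalSpace E]
    [IsTopologicalAddGroup E] [ContinuousSMul ℝ E] [T2Space E] [FiniteDimensional ℝ E]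
    (hm : m ≤ finrank ℝ E) (F : E → Matrix (Fin 3) (Fin n) K) (hF : ContinuousOn F {0}ᶜ)
    (hodd : ∀ x, x ≠ 0 → F (-x) = -F x) (Q : Matrix (Fin 3) (Fin n) K → Prop)
    (hQ : ∀ x, x ≠ 0 → Q (F x)) :
    ∃ F' : (Fin m → ℝ) → Matrix (Fin 3) (Fin n) K, ContinuousOn F' {0}ᶜ ∧
      (∀ x, x ≠ 0 → F' (-x) = -F' x) ∧ (∀ x, x ≠ 0 → ∀ c : ℝ, 0 < c → F' (c • x) = F' x) ∧
      ∀ x, x ≠ 0 → Q (F' x) := by
  obtain ⟨Ψ, hΨ⟩ := exists_inj (E := E) (m := m) hm
  have hΨ0 : ∀ x, x ≠ 0 → Ψ x ≠ 0 := fun x hx h => hx (hΨ (by rw [h, map_zero]))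
  have hn0 : ∀ x : Fin m → ℝ, x ≠ 0 → ‖x‖⁻¹ • x ≠ 0 := fun x hx =>
    smul_ne_zero (inv_ne_zero (norm_ne_zero_iff.2 hx)) hx
  refine ⟨fun x => F (Ψ (‖x‖⁻¹ • x)), ?_, ?_, ?_, ?_⟩
  · refine hF.comp (Ψ.continuous_of_finiteDimensional.comp_continuousOn ?_) ?_
    · exact (continuous_norm.continuousOn.inv₀ fun x hx => norm_ne_zero_iff.2 hx).smul
        continuousOn_id
    · intro x hx
      exact hΨ0 _ (hn0 x hx)
  · intro x hx
    show F (Ψ (‖-x‖⁻¹ • -x)) = -F (Ψ (‖x‖⁻¹ • x))
    rw [norm_neg, smul_neg, map_neg, hodd _ (hΨ0 _ (hn0 x hx))]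
  · intro x hx c hc
    show F (Ψ (‖c • x‖⁻¹ • c • x)) = F (Ψ (‖x‖⁻¹ • x))
    rw [norm_smul, Real.norm_of_nonneg hc.le, smul_smul]
    congr 3
    field_simp
  · intro x hx
    exact hQ _ (hΨ0 _ (hn0 x hx))

theorem single_dg {n : ℕ} (hn : 3 ≤ n) (s : Fin 3 → ℝ) (i : Fin 3) :
    ((Pi.single i 1 : Fin 3 → K) ᵥ* dg K n s) (Fin.castLE hn i) = ((s i : ℝ) : K) := by
  rw [single_one_vecMul]
  show dg K n s i (Fin.castLE hn i) = _
  rw [dg_apply, if_pos (show (i : ℕ) = ((Fin.castLE hn i : Fin n) : ℕ) from rfl)]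

theorem s_T1 (hSV : S_SV) : S_T1 := by
  intro K _ n hn E _ _ _ _ _ _ _ F hF hodd hs
  obtain ⟨sg, hsgc, hsg, huniq, -⟩ := hSV K n hn
  by_contra hlt
  push Not at hlt
  have hd : 1 ≤ finrank ℝ K := by rcases finrank_K12 K with h | h <;> omega
  have hN3 : 3 * finrank ℝ K ≤ n * finrank ℝ K := Nat.mul_le_mul_right _ hn
  obtain ⟨F', hF'c, hF'o, hF'h, hF'Q⟩ := exists_hom (m := n * finrank ℝ K + 1) hlt F hF hodd
    (fun B => ∀ s, IsSing B s → s 1 < s 0) hs
  have hsq : ∀ x, x ≠ 0 → sg (F' x) 1 ^ 2 < sg (F' x) 0 ^ 2 := by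
    intro x hx
    have h1 := hF'Q x hx _ (hsg (F' x))
    have h2 := (hsg (F' x)).nonneg 1
    nlinarith
  have hsq2 : ∀ x, sg (F' x) 2 ^ 2 ≤ sg (F' x) 1 ^ 2 := by
    intro x
    have h1 : sg (F' x) 2 ≤ sg (F' x) 1 := (hsg (F' x)).anti (by decide)
    have h2 := (hsg (F' x)).nonneg 2
    nlinarith
  obtain ⟨u, huc, hu⟩ := exists_eigen hn sg hsgc hsg huniq (by omega) (by omega) F' hF'c hF'o hF'h
    0 1 2 (fun l => by fin_cases l <;> simp) (fun x hx => (hsq x hx).ne')
    (fun x hx => (lt_of_le_of_lt (hsq2 x) (hsq x hx)).ne')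
  have h5 := Pool.Agent.Helper29.CKP.bu (E := Fin (n * finrank ℝ K + 1) → ℝ) (W := Fin n → K)
    (fun x => star (u x) ᵥ* F' x) (by
      rw [continuousOn_pi]
      intro j
      simp only [vecMul, dotProduct]
      refine continuousOn_finsetSum _ fun l _ => ContinuousOn.mul ?_ ?_
      · exact continuous_star.comp_continuousOn (continuousOn_pi.1 huc l)
      · exact (continuous_id.matrix_elem l j).comp_continuousOn hF'c) (by
      intro x hx
      show star (u (-x)) ᵥ* F' (-x) = -(star (u x) ᵥ* F' x)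
      rw [(hu x hx).2.1, hF'o x hx, vecMul_neg]) (by
      intro x hx h0
      obtain ⟨-, -, U, W, c, hU, hW, e, hc, eu⟩ := hu x hx
      have hU' : Uᴴ * U = 1 := mul_eq_one_comm.1 hU
      have h1 : star (u x) ᵥ* F' x = star c •
          (((Pi.single 0 1 : Fin 3 → K) ᵥ* dg K n (sg (F' x))) ᵥ* W) := by
        have h2 : star (Pi.single 0 1 : Fin 3 → K) = Pi.single 0 1 := by
          rw [← Pi.single_star, star_one]
        rw [eu, star_smul, star_mulVec, h2, smul_vecMul]
        congr 1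
        conv_lhs => rw [e]
        rw [vecMul_vecMul, vecMul_vecMul]
        congr 1
        calc Uᴴ * (U * dg K n (sg (F' x)) * W) = (Uᴴ * U) * dg K n (sg (F' x)) * W := by
              simp only [Matrix.mul_assoc]
          _ = _ := by rw [hU', Matrix.one_mul]
      rw [h1] at h0
      have h2 := (smul_eq_zero.1 h0).resolve_left (star_ne_zero.2 hc)
      have h3 : ((Pi.single 0 1 : Fin 3 → K) ᵥ* dg K n (sg (F' x))) = 0 := by
        have h4 : (((Pi.single 0 1 : Fin 3 → K) ᵥ* dg K n (sg (F' x))) ᵥ* W) ᵥ* Wᴴ =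
            (Pi.single 0 1 : Fin 3 → K) ᵥ* dg K n (sg (F' x)) := by
          rw [vecMul_vecMul _ W, hW, vecMul_one]
        rw [← h4, h2, zero_vecMul]
      have h4 := congrFun h3 (Fin.castLE hn 0)
      rw [single_dg hn, Pi.zero_apply, RCLike.ofReal_eq_zero] at h4
      have h6 := hF'Q x hx _ (hsg (F' x))
      have h7 := (hsg (F' x)).nonneg 1
      linarith)
  rw [finrank_fin_fun, finrank_vec] at h5
  omega

theorem s_T2 (hSV : S_SV) : S_T2 := by
  classical
  intro K _ n hn E _ _ _ _ _ _ _ F hF hodd hs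
  obtain ⟨sg, hsgc, hsg, huniq, -⟩ := hSV K n hn
  by_contra hlt
  push Not at hlt
  have hd : 1 ≤ finrank ℝ K := by rcases finrank_K12 K with h | h <;> omega
  have hN3 : 3 * finrank ℝ K ≤ n * finrank ℝ K := Nat.mul_le_mul_right _ hn
  set d := finrank ℝ K with hdd
  set N := n * d with hN
  obtain ⟨F', hF'c, hF'o, hF'h, hF'Q⟩ := exists_hom (m := N + 1) hlt F hF hodd
    (fun B => ∀ s, IsSing B s → s 2 < s 1) hs
  have hsq : ∀ x, x ≠ 0 → sg (F' x) 2 ^ 2 < sg (F' x) 1 ^ 2 := by
    intro x hx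
    have h1 := hF'Q x hx _ (hsg (F' x))
    have h2 := (hsg (F' x)).nonneg 2
    nlinarith
  have hsq2 : ∀ x, sg (F' x) 1 ^ 2 ≤ sg (F' x) 0 ^ 2 := by
    intro x
    have h1 : sg (F' x) 1 ≤ sg (F' x) 0 := (hsg (F' x)).anti (by decide)
    have h2 := (hsg (F' x)).nonneg 1
    nlinarith
  obtain ⟨u, huc, hu⟩ := exists_eigen hn sg hsgc hsg huniq (by omega) (by omega) F' hF'c hF'o hF'h
    2 0 1 (fun l => by fin_cases l <;> simp)
    (fun x hx => (lt_of_lt_of_le (hsq x hx) (hsq2 x)).ne) (fun x hx => (hsq x hx).ne)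
  -- the key property: no common zero
  have hkey : ∀ x, x ≠ 0 → ∀ v : Fin 3 → K, v ᵥ* F' x = 0 → v ⬝ᵥ u x = 0 → v = 0 := by
    intro x hx v h1 h2
    obtain ⟨-, -, U, W, c, hU, hW, e, hc, eu⟩ := hu x hx
    have h3 : (v ᵥ* U) ᵥ* dg K n (sg (F' x)) = 0 := by
      have h4 : ((v ᵥ* U) ᵥ* dg K n (sg (F' x))) ᵥ* W = 0 := by
        rw [vecMul_vecMul, vecMul_vecMul, ← Matrix.mul_assoc, ← e, h1]
      have h5 : (((v ᵥ* U) ᵥ* dg K n (sg (F' x))) ᵥ* W) ᵥ* Wᴴ =
          (v ᵥ* U) ᵥ* dg K n (sg (F' x)) := by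
        rw [vecMul_vecMul _ W, hW, vecMul_one]
      rw [← h5, h4, zero_vecMul]
    have h4 : ∀ i, (v ᵥ* U) i * ((sg (F' x) i : ℝ) : K) = 0 := by
      intro i
      have h5 := congrFun h3 (Fin.castLE hn i)
      have h6 : ((v ᵥ* U) ᵥ* dg K n (sg (F' x))) (Fin.castLE hn i) =
          (v ᵥ* U) i * ((sg (F' x) i : ℝ) : K) := by
        show ∑ l, (v ᵥ* U) l * dg K n (sg (F' x)) l (Fin.castLE hn i) = _
        rw [Finset.sum_eq_single i]
        · rw [dg_apply, if_pos (show (i : ℕ) = ((Fin.castLE hn i : Fin n) : ℕ) from rfl)]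
        · intro l _ hl
          rw [dg_apply, if_neg (show ¬ (l : ℕ) = ((Fin.castLE hn i : Fin n) : ℕ) from
            fun h => hl (Fin.ext h)), mul_zero]
        · intro h
          exact absurd (Finset.mem_univ i) h
      rw [← h6, h5, Pi.zero_apply]
    have hs1 : 0 < sg (F' x) 1 :=
      lt_of_le_of_lt ((hsg (F' x)).nonneg 2) (hF'Q x hx _ (hsg (F' x)))
    have hs0 : 0 < sg (F' x) 0 := lt_of_lt_of_le hs1 ((hsg (F' x)).anti (by decide))
    have h5 : (v ᵥ* U) 0 = 0 := (mul_eq_zero.1 (h4 0)).resolve_right (by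
      rw [RCLike.ofReal_eq_zero]
      exact hs0.ne')
    have h6 : (v ᵥ* U) 1 = 0 := (mul_eq_zero.1 (h4 1)).resolve_right (by
      rw [RCLike.ofReal_eq_zero]
      exact hs1.ne')
    have h7 : (v ᵥ* U) 2 = 0 := by
      rw [eu, dotProduct_smul, dotProduct_mulVec, dotProduct_single, mul_one, smul_eq_mul] at h2
      exact (mul_eq_zero.1 h2).resolve_left hc
    have h8 : v ᵥ* U = 0 := by
      funext i
      fin_cases i
      · exact h5
      · exact h6
      · exact h7
    have h9 : v = (v ᵥ* U) ᵥ* Uᴴ := by rw [vecMul_vecMul, hU, vecMul_one]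
    rw [h9, h8, zero_vecMul]
  -- the spheres
  set aa : Bool → ℕ := fun i => if i = true then N else N + d - N with haa
  obtain ⟨Φ, hΦ⟩ := exists_inj (E := Fin 3 → K) (m := aa false + 1) (by
    rw [finrank_vec]
    show N + d - N + 1 ≤ _
    omega)
  have hΦ0 : ∀ x, x ≠ 0 → Φ x ≠ 0 := fun x hx h => hx (hΦ (by rw [h, map_zero]))
  let Θ : (Fin n → K) ≃ₗ[ℝ] (Fin N → ℝ) := LinearEquiv.ofFinrankEq _ _ (by
    rw [finrank_fin_fun, finrank_vec])
  let Θ' : K ≃ₗ[ℝ] (Fin d → ℝ) := LinearEquiv.ofFinrankEq _ _ (by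
    rw [finrank_fin_fun])
  let g1 : (∀ i : Bool, Fin (aa i + 1) → ℝ) → Fin n → K := fun x => Φ (x false) ᵥ* F' (x true)
  let g2 : (∀ i : Bool, Fin (aa i + 1) → ℝ) → K := fun x => Φ (x false) ⬝ᵥ u (x true)
  let f : (∀ i : Bool, Fin (aa i + 1) → ℝ) → Fin (N + d) → ℝ := fun x =>
    Fin.append (Θ (g1 x)) (Θ' (g2 x))
  have hne : ∀ x : (∀ i : Bool, Fin (aa i + 1) → ℝ), (∀ i, ‖x i‖ = 1) → ∀ i, x i ≠ 0 := by
    intro x hx i h
    have := hx i
    rw [h, norm_zero] at this
    exact zero_ne_one this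
  have hf : ContinuousOn f {x | ∀ i, ‖x i‖ = 1} := by
    have h1 : ContinuousOn (fun x : (∀ i : Bool, Fin (aa i + 1) → ℝ) => F' (x true))
        {x | ∀ i, ‖x i‖ = 1} :=
      hF'c.comp (continuous_apply true).continuousOn fun x hx => hne x hx true
    have h1' : ContinuousOn (fun x : (∀ i : Bool, Fin (aa i + 1) → ℝ) => u (x true))
        {x | ∀ i, ‖x i‖ = 1} :=
      huc.comp (continuous_apply true).continuousOn fun x hx => hne x hx true
    have h2 : Continuous fun x : (∀ i : Bool, Fin (aa i + 1) → ℝ) => Φ (x false) :=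
      Φ.continuous_of_finiteDimensional.comp (continuous_apply false)
    have hg1 : ContinuousOn g1 {x | ∀ i, ‖x i‖ = 1} := by
      rw [continuousOn_pi]
      intro j
      simp only [g1, vecMul, dotProduct]
      refine continuousOn_finsetSum _ fun l _ => ContinuousOn.mul ?_ ?_
      · exact ((continuous_apply l).comp h2).continuousOn
      · exact (continuous_id.matrix_elem l j).comp_continuousOn h1
    have hg2 : ContinuousOn g2 {x | ∀ i, ‖x i‖ = 1} := by
      simp only [g2, dotProduct]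
      refine continuousOn_finsetSum _ fun l _ => ContinuousOn.mul ?_ ?_
      · exact ((continuous_apply l).comp h2).continuousOn
      · exact continuousOn_pi.1 h1' l
    have h3 : ContinuousOn (fun x => Θ (g1 x)) {x | ∀ i, ‖x i‖ = 1} :=
      (LinearMap.continuous_of_finiteDimensional Θ.toLinearMap).comp_continuousOn hg1
    have h4 : ContinuousOn (fun x => Θ' (g2 x)) {x | ∀ i, ‖x i‖ = 1} :=
      (LinearMap.continuous_of_finiteDimensional Θ'.toLinearMap).comp_continuousOn hg2
    refine continuousOn_pi.2 fun j => ?_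
    refine Fin.addCases (fun j => ?_) (fun j => ?_) j
    · refine (continuousOn_pi.1 h3 j).congr fun x _ => ?_
      show Fin.append (Θ (g1 x)) (Θ' (g2 x)) (Fin.castAdd _ j) = _
      rw [Fin.append_left]
    · refine (continuousOn_pi.1 h4 j).congr fun x _ => ?_
      show Fin.append (Θ (g1 x)) (Θ' (g2 x)) (Fin.natAdd _ j) = _
      rw [Fin.append_right]
  have hch : Odd (N.choose N) := by
    rw [Nat.choose_self]
    exact odd_one
  rw [← card_chr N d N] at hch
  obtain ⟨x, hx, hx0⟩ := zero_spheres aa (fun i => Fin (aa i + 1) → ℝ)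
    (fun i => by rw [finrank_fin_fun]) (d := N + d) (by
      simp [haa]) (chr N d) (by
      refine Eq.mp (congrArg (fun s : Finset (Fin (N + d) → Bool) => Odd s.card) ?_) hch
      ext σ
      simp only [Finset.mem_filter, haa]) f hf (by
      intro x hx i j
      refine Fin.addCases (fun j => ?_) (fun j => ?_) j
      · show Fin.append (Θ (g1 _)) (Θ' (g2 _)) (Fin.castAdd _ j) =
          _ * Fin.append (Θ (g1 x)) (Θ' (g2 x)) (Fin.castAdd _ j)
        rw [Fin.append_left, Fin.append_left]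
        have h1 : g1 (Function.update x i (-x i)) = -g1 x := by
          cases i with
          | true =>
            show Φ (Function.update x true (-x true) false) ᵥ*
              F' (Function.update x true (-x true) true) = -(Φ (x false) ᵥ* F' (x true))
            rw [Function.update_self, Function.update_of_ne (by decide),
              hF'o _ (hne x hx true), vecMul_neg]
          | false =>
            show Φ (Function.update x false (-x false) false) ᵥ*
              F' (Function.update x false (-x false) true) = -(Φ (x false) ᵥ* F' (x true))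
            rw [Function.update_self, Function.update_of_ne (by decide), map_neg, neg_vecMul]
        have h2 : chr N d (Fin.castAdd d j) i = 1 := by
          cases i <;> simp [chr]
        rw [h1, h2, sgn, if_neg (by decide), neg_one_mul, map_neg, Pi.neg_apply]
      · show Fin.append (Θ (g1 _)) (Θ' (g2 _)) (Fin.natAdd _ j) =
          _ * Fin.append (Θ (g1 x)) (Θ' (g2 x)) (Fin.natAdd _ j)
        rw [Fin.append_right, Fin.append_right]
        cases i with
        | true =>
          have h1 : g2 (Function.update x true (-x true)) = g2 x := by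
            show Φ (Function.update x true (-x true) false) ⬝ᵥ
              u (Function.update x true (-x true) true) = Φ (x false) ⬝ᵥ u (x true)
            rw [Function.update_self, Function.update_of_ne (by decide),
              (hu _ (hne x hx true)).2.1]
          have h2 : chr N d (Fin.natAdd N j) true = 0 := by
            simp [chr]
          rw [h1, h2, sgn, if_pos rfl, one_mul]
        | false =>
          have h1 : g2 (Function.update x false (-x false)) = -g2 x := by
            show Φ (Function.update x false (-x false) false) ⬝ᵥ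
              u (Function.update x false (-x false) true) = -(Φ (x false) ⬝ᵥ u (x true))
            rw [Function.update_self, Function.update_of_ne (by decide), map_neg,
              neg_dotProduct]
          have h2 : chr N d (Fin.natAdd N j) false = 1 := by
            simp [chr]
          rw [h1, h2, sgn, if_neg (by decide), neg_one_mul, map_neg, Pi.neg_apply])
  have h1 : g1 x = 0 := by
    apply Θ.map_eq_zero_iff.1
    funext j
    have h3 := congrFun hx0 (Fin.castAdd _ j)
    have h4 : Fin.append (Θ (g1 x)) (Θ' (g2 x)) (Fin.castAdd _ j) = 0 := h3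
    rwa [Fin.append_left] at h4
  have h2 : g2 x = 0 := by
    apply Θ'.map_eq_zero_iff.1
    funext j
    have h3 := congrFun hx0 (Fin.natAdd _ j)
    have h4 : Fin.append (Θ (g1 x)) (Θ' (g2 x)) (Fin.natAdd _ j) = 0 := h3
    rwa [Fin.append_right] at h4
  exact hΦ0 _ (hne x hx false) (hkey _ (hne x hx true) _ h1 h2)

end Pool.Agent.Helper30.RT
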