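import Pool.Agent.Helper20.CK3.Stmts
import Pool.Agent.Helper20.CKP.EvenN
import Pool.Agent.Helper43.ZT.Dyadic

/-!
# RT: odd maps into the matrices of rank three
-/

set_option autoImplicit false

namespace Pool.Agent.Helper30.RT

open Topology Filter Module Matrix Finset Pool.Agent.Helper20.CK3 Pool.Agent.Helper20.CKP
  Pool.Agent.Helper29.ZBU

variable {K : Type} [RCLike K]

theorem finrank_K12 (K : Type) [RCLike K] : finrank ℝ K = 1 ∨ finrank ℝ K = 2 := by
  rcases RCLike.I_eq_zero_or_im_I_eq_one (K := K) with hI | hI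
  · left
    rw [(RCLike.realLinearIsometryEquiv hI).toLinearEquiv.finrank_eq]
    exact Module.finrank_self ℝ
  · right
    rw [(RCLike.complexLinearIsometryEquiv hI).toLinearEquiv.finrank_eq,
      Complex.finrank_real_complex]

theorem finrank_vec (K : Type) [RCLike K] (n : ℕ) : finrank ℝ (Fin n → K) = n * finrank ℝ K := by
  rw [finrank_pi_fintype]
  simp

/-- If an odd map from a space of dimension `n * dim K` minus the origin to the matrices with `r`
rows and `n` columns has rank `r` everywhere, the binomial coefficients are even. -/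
theorem even_choose_rank {r n : ℕ} {E : Type} [AddCommGroup E]
    [Module ℝ E] [TopologicalSpace E] [IsTopologicalAddGroup E] [ContinuousSMul ℝ E] [T2Space E]
    [FiniteDimensional ℝ E] (hE : finrank ℝ E = n * finrank ℝ K)
    (F : E → Matrix (Fin r) (Fin n) K) (hF : ContinuousOn F {0}ᶜ)
    (hodd : ∀ x, x ≠ 0 → F (-x) = -F x)
    (hr : ∀ x, x ≠ 0 → ∀ v : Fin r → K, v ᵥ* F x = 0 → v = 0) {k : ℕ} (hk : 1 ≤ k)
    (hkr : k < r * finrank ℝ K) (hkn : k ≤ n * finrank ℝ K) :
    Even ((n * finrank ℝ K).choose k) := by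
  classical
  by_contra hch
  rw [Nat.not_even_iff_odd] at hch
  set N := n * finrank ℝ K with hN
  set aa : Bool → ℕ := fun i => if i = true then k else N + 0 - k with haa
  obtain ⟨Φ, hΦ⟩ := exists_inj (E := Fin r → K) (m := aa true + 1) (by
    rw [finrank_vec]
    show k + 1 ≤ _
    omega)
  obtain ⟨Ψ, hΨ⟩ := exists_inj (E := E) (m := aa false + 1) (by
    rw [hE]
    show N + 0 - k + 1 ≤ _
    omega)
  have hΨ0 : ∀ x, x ≠ 0 → Ψ x ≠ 0 := fun x hx h => hx (hΨ (by rw [h, map_zero]))
  have hΦ0 : ∀ x, x ≠ 0 → Φ x ≠ 0 := fun x hx h => hx (hΦ (by rw [h, map_zero]))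
  let Θ : (Fin n → K) ≃ₗ[ℝ] (Fin (N + 0) → ℝ) := LinearEquiv.ofFinrankEq _ _ (by
    rw [finrank_fin_fun, finrank_vec, add_zero])
  let f : (∀ i : Bool, Fin (aa i + 1) → ℝ) → Fin (N + 0) → ℝ := fun x =>
    Θ (Φ (x true) ᵥ* F (Ψ (x false)))
  have hne : ∀ x : (∀ i : Bool, Fin (aa i + 1) → ℝ), (∀ i, ‖x i‖ = 1) → ∀ i, x i ≠ 0 := by
    intro x hx i h
    have := hx i
    rw [h, norm_zero] at this
    exact zero_ne_one this
  have hf : ContinuousOn f {x | ∀ i, ‖x i‖ = 1} := by
    have h1 : ContinuousOn (fun x : (∀ i : Bool, Fin (aa i + 1) → ℝ) => F (Ψ (x false)))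
        {x | ∀ i, ‖x i‖ = 1} := by
      refine hF.comp (Ψ.continuous_of_finiteDimensional.comp (continuous_apply false)).continuousOn ?_
      intro x hx
      exact hΨ0 _ (hne x hx false)
    have h2 : Continuous fun x : (∀ i : Bool, Fin (aa i + 1) → ℝ) => Φ (x true) :=
      Φ.continuous_of_finiteDimensional.comp (continuous_apply true)
    refine (LinearMap.continuous_of_finiteDimensional Θ.toLinearMap).comp_continuousOn ?_
    rw [continuousOn_pi]
    intro j
    simp only [vecMul, dotProduct]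
    refine continuousOn_finsetSum _ fun l _ => ContinuousOn.mul ?_ ?_
    · exact ((continuous_apply l).comp h2).continuousOn
    · exact (continuous_id.matrix_elem l j).comp_continuousOn h1
  rw [← card_chr N 0 k] at hch
  obtain ⟨x, hx, hx0⟩ := zero_spheres aa (fun i => Fin (aa i + 1) → ℝ)
    (fun i => by rw [finrank_fin_fun]) (d := N + 0) (by
      simp [haa]
      omega) (chr N 0) (by
      refine Eq.mp (congrArg (fun s : Finset (Fin (N + 0) → Bool) => Odd s.card) ?_) hch
      ext σ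
      simp only [Finset.mem_filter, haa]) f hf (by
      intro x hx i j
      have hc : chr N 0 j i = 1 := by
        have hj : (j : ℕ) < N := j.2
        cases i <;> simp [chr, hj]
      have h1 : Φ (Function.update x i (-x i) true) ᵥ* F (Ψ (Function.update x i (-x i) false)) =
          -(Φ (x true) ᵥ* F (Ψ (x false))) := by
        cases i with
        | true =>
          rw [Function.update_self, Function.update_of_ne (by decide), map_neg, neg_vecMul]
        | false =>
          rw [Function.update_self, Function.update_of_ne (by decide), map_neg,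
            hodd _ (hΨ0 _ (hne x hx false)), vecMul_neg]
      show Θ (Φ (Function.update x i (-x i) true) ᵥ* F (Ψ (Function.update x i (-x i) false))) j =
        sgn (chr N 0 j i) * Θ (Φ (x true) ᵥ* F (Ψ (x false))) j
      rw [h1, map_neg, hc, sgn, if_neg (by decide), neg_one_mul]
      rfl)
  have h1 : Φ (x true) ᵥ* F (Ψ (x false)) = 0 := Θ.map_eq_zero_iff.1 hx0
  exact hΦ0 _ (hne x hx true) (hr _ (hΨ0 _ (hne x hx false)) _ h1)

/-- The rows of a matrix with positive singular values are independent. -/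
theorem vec_eq_zero {n : ℕ} (hn : 3 ≤ n) {B : Matrix (Fin 3) (Fin n) K} {s : Fin 3 → ℝ}
    (h : IsSing B s) (hs : 0 < s 2) {v : Fin 3 → K} (hv : v ᵥ* B = 0) : v = 0 := by
  obtain ⟨U, W, hU, hW, e⟩ := h.conj
  have hpos : ∀ i, 0 < s i := fun i => lt_of_lt_of_le hs (h.anti (by
    fin_cases i <;> decide))
  have h1 : (v ᵥ* U) ᵥ* dg K n s = 0 := by
    have h2 : ((v ᵥ* U) ᵥ* dg K n s) ᵥ* W = 0 := by
      rw [vecMul_vecMul, vecMul_vecMul, ← Matrix.mul_assoc, ← e, hv]
    have h3 : (((v ᵥ* U) ᵥ* dg K n s) ᵥ* W) ᵥ* Wᴴ = (v ᵥ* U) ᵥ* dg K n s := by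
      rw [vecMul_vecMul _ W, hW, vecMul_one]
    rw [← h3, h2, zero_vecMul]
  have h2 : v ᵥ* U = 0 := by
    funext i
    have h3 := congrFun h1 (Fin.castLE hn i)
    have h4 : ((v ᵥ* U) ᵥ* dg K n s) (Fin.castLE hn i) = (v ᵥ* U) i * ((s i : ℝ) : K) := by
      show ∑ l, (v ᵥ* U) l * dg K n s l (Fin.castLE hn i) = _
      rw [Finset.sum_eq_single i]
      · show (v ᵥ* U) i * (if (i : ℕ) = ((Fin.castLE hn i : Fin n) : ℕ) then ((s i : ℝ) : K)
          else 0) = _
        rw [if_pos (show (i : ℕ) = ((Fin.castLE hn i : Fin n) : ℕ) from rfl)]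
      · intro l _ hl
        show (v ᵥ* U) l * (if (l : ℕ) = ((Fin.castLE hn i : Fin n) : ℕ) then ((s l : ℝ) : K)
          else 0) = _
        rw [if_neg (show ¬ (l : ℕ) = ((Fin.castLE hn i : Fin n) : ℕ) from
          fun h => hl (Fin.ext h)), mul_zero]
      · intro h
        exact absurd (Finset.mem_univ i) h
    rw [h4] at h3
    refine (mul_eq_zero.1 h3).resolve_right ?_
    rw [RCLike.ofReal_eq_zero]
    exact (hpos i).ne'
  have h3 : v = (v ᵥ* U) ᵥ* Uᴴ := by rw [vecMul_vecMul, hU, vecMul_one]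
  rw [h3, h2, zero_vecMul]

theorem s_T3 (hSV : S_SV) : S_T3 := by
  intro K _ n hn E _ _ _ _ _ _ _ F hF hodd hs
  obtain ⟨sg, hsgc, hsg, -, -⟩ := hSV K n hn
  have hr : ∀ x, x ≠ 0 → ∀ v : Fin 3 → K, v ᵥ* F x = 0 → v = 0 := fun x hx v hv =>
    vec_eq_zero hn (hsg (F x)) (hs x hx _ (hsg (F x))) hv
  refine ⟨?_, fun hE => ?_⟩
  · rw [← finrank_vec K n]
    refine Pool.Agent.Helper29.CKP.bu (fun x => (Pi.single 0 1 : Fin 3 → K) ᵥ* F x) ?_ ?_ ?_
    · rw [continuousOn_pi]
      intro j
      simp only [vecMul, dotProduct]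
      refine continuousOn_finsetSum _ fun l _ => ContinuousOn.mul continuousOn_const ?_
      exact (continuous_id.matrix_elem l j).comp_continuousOn hF
    · intro x hx
      show _ ᵥ* F (-x) = -(_ ᵥ* F x)
      rw [hodd x hx, vecMul_neg]
    · intro x hx h
      have h1 := hr x hx _ h
      have h2 : (Pi.single 0 1 : Fin 3 → K) 0 = 1 := Pi.single_eq_same 0 1
      rw [h1] at h2
      exact zero_ne_one h2
  · have h1 : ∀ k, 1 ≤ k → k < 3 * finrank ℝ K → Even ((n * finrank ℝ K).choose k) := by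
      intro k hk hk3
      refine even_choose_rank hE F hF hodd hr hk hk3 ?_
      have : 3 * finrank ℝ K ≤ n * finrank ℝ K := Nat.mul_le_mul_right _ hn
      omega
    rcases finrank_K12 K with hd | hd
    · rw [hd, mul_one, mul_one] at h1
      exact Pool.Agent.Helper43.ZT.two_pow_dvd_of_even h1 2 (by norm_num)
    · rw [hd] at h1
      have h2 := Pool.Agent.Helper43.ZT.two_pow_dvd_of_even h1 3 (by norm_num)
      have h3 : 4 * 2 ∣ n * 2 := by simpa using h2
      exact Nat.dvd_of_mul_dvd_mul_right (by norm_num) h3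

end Pool.Agent.Helper30.RT
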