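import Mathlib

/-!
# RT: matrices with three rows, singular values (shared definitions)
-/

set_option autoImplicit false

namespace Pool.Agent.Helper30.RT

open Matrix Module

/-- The real diagonal matrix with three rows. -/
noncomputable def dg (K : Type) [RCLike K] (n : ℕ) (d : Fin 3 → ℝ) : Matrix (Fin 3) (Fin n) K :=
  Matrix.of fun i j => if (j : ℕ) = (i : ℕ) then ((d i : ℝ) : K) else 0

/-- `t` is the list of the singular values of `B`, in decreasing order. -/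
def SV {K : Type} [RCLike K] {n : ℕ} (B : Matrix (Fin 3) (Fin n) K) (t : Fin 3 → ℝ) : Prop :=
  t 1 ≤ t 0 ∧ t 2 ≤ t 1 ∧ 0 ≤ t 2 ∧
    ∃ (U : Matrix (Fin 3) (Fin 3) K) (W : Matrix (Fin n) (Fin n) K), U * Uᴴ = 1 ∧ W * Wᴴ = 1 ∧
      B = U * dg K n t * Wᴴ

/-- Singular values exist and are continuous. -/
def S_SV : Prop := ∀ (K : Type) [RCLike K] (n : ℕ), 3 ≤ n →
  ∃ s : Matrix (Fin 3) (Fin n) K → Fin 3 → ℝ, Continuous s ∧ ∀ B, SV B (s B)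

/-- Simultaneous singular value decomposition of a commuting family. -/
def S_SIM : Prop := ∀ (K : Type) [RCLike K] (n : ℕ), 3 ≤ n →
  ∀ A : Submodule ℝ (Matrix (Fin 3) (Fin n) K),
    (∀ B ∈ A, ∀ C ∈ A, B * Cᴴ = C * Bᴴ ∧ Bᴴ * C = Cᴴ * B) →
    ∃ (U : Matrix (Fin 3) (Fin 3) K) (W : Matrix (Fin n) (Fin n) K), U * Uᴴ = 1 ∧ W * Wᴴ = 1 ∧
      ∀ B ∈ A, ∃ d : Fin 3 → ℝ, U * B * Wᴴ = dg K n d

/-- An odd map with `s 0 ≠ s 1` everywhere. -/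
def S_T1 : Prop := ∀ (K : Type) [RCLike K] (n : ℕ), 3 ≤ n →
  ∀ (s : Matrix (Fin 3) (Fin n) K → Fin 3 → ℝ), Continuous s → (∀ B, SV B (s B)) →
  ∀ (E : Type) [NormedAddCommGroup E] [NormedSpace ℝ E] [FiniteDimensional ℝ E]
    (F : E → Matrix (Fin 3) (Fin n) K), ContinuousOn F {0}ᶜ → (∀ x, x ≠ 0 → F (-x) = -F x) →
    (∀ x, x ≠ 0 → s (F x) 0 ≠ s (F x) 1) → finrank ℝ E ≤ n * finrank ℝ K

/-- An odd map with `s 1 ≠ s 2` everywhere. -/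
def S_T2 : Prop := ∀ (K : Type) [RCLike K] (n : ℕ), 3 ≤ n →
  ∀ (s : Matrix (Fin 3) (Fin n) K → Fin 3 → ℝ), Continuous s → (∀ B, SV B (s B)) →
  ∀ (E : Type) [NormedAddCommGroup E] [NormedSpace ℝ E] [FiniteDimensional ℝ E]
    (F : E → Matrix (Fin 3) (Fin n) K), ContinuousOn F {0}ᶜ → (∀ x, x ≠ 0 → F (-x) = -F x) →
    (∀ x, x ≠ 0 → s (F x) 1 ≠ s (F x) 2) → finrank ℝ E ≤ n * finrank ℝ K

/-- An odd map with rank three everywhere (`v ᵥ* B ≠ 0` for all `v ≠ 0`). -/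
def S_T3 : Prop := ∀ (K : Type) [RCLike K] (n : ℕ), 3 ≤ n →
  ∀ (E : Type) [NormedAddCommGroup E] [NormedSpace ℝ E] [FiniteDimensional ℝ E]
    (F : E → Matrix (Fin 3) (Fin n) K), ContinuousOn F {0}ᶜ → (∀ x, x ≠ 0 → F (-x) = -F x) →
    (∀ x, x ≠ 0 → ∀ v : Fin 3 → K, v ᵥ* F x = 0 → v = 0) →
    finrank ℝ E ≤ n * finrank ℝ K ∧ (finrank ℝ E = n * finrank ℝ K → 4 ∣ n)

/-- The chamber lemma: a connected family of singular values which meets no conjugate of the plane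
orthogonal to `ν` misses a wall. -/
def S_CH : Prop := ∀ (X : Type) [TopologicalSpace X] [PreconnectedSpace X] (σ : X → Fin 3 → ℝ),
  Continuous σ → ∀ ν : Fin 3 → ℝ,
  (∀ x, ∀ (π : Equiv.Perm (Fin 3)) (ε : Fin 3 → ℝ), (∀ i, ε i = 1 ∨ ε i = -1) →
    ∑ i, ε i * ν (π i) * σ x i ≠ 0) →
  (∀ x, σ x 0 ≠ σ x 1) ∨ (∀ x, σ x 1 ≠ σ x 2) ∨ ∀ x, σ x 2 ≠ 0

end Pool.Agent.Helper30.RT
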