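import Pool.Agent.Helper17.CKF.RC1
import Pool.Agent.Helper29.CKP.Coind

/-!
# RT: even line bundles over spheres have even sections (real or complex)
-/

set_option autoImplicit false

namespace Pool.Agent.Helper30.RT

open Topology Filter Module Matrix

variable {K : Type} [RCLike K]

theorem near_ne {m : ℕ} {P Q : Matrix (Fin m) (Fin m) K} {v : Fin m → K} (hv : v ≠ 0)
    (hP : P *ᵥ v = v) (hPQ : ∀ i j, ‖P i j - Q i j‖ < 1 / (2 * ((m : ℝ) + 1))) : Q *ᵥ v ≠ 0 := by
  intro h
  have hM : 0 < ‖v‖ := norm_pos_iff.2 hv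
  have hm : (0 : ℝ) < (m : ℝ) + 1 := by positivity
  have h1 : ∀ i, ‖v i‖ ≤ ‖v‖ / 2 := by
    intro i
    have h2 : v i = ∑ j, (P i j - Q i j) * v j := by
      have h3 : (P *ᵥ v) i - (Q *ᵥ v) i = v i := by rw [hP, h, Pi.zero_apply, sub_zero]
      rw [← h3]
      simp only [mulVec, dotProduct, sub_mul, Finset.sum_sub_distrib]
    rw [h2]
    calc ‖∑ j, (P i j - Q i j) * v j‖ ≤ ∑ j, ‖(P i j - Q i j) * v j‖ := norm_sum_le _ _
      _ ≤ ∑ _j : Fin m, 1 / (2 * ((m : ℝ) + 1)) * ‖v‖ := by
          refine Finset.sum_le_sum fun j _ => ?_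
          rw [norm_mul]
          exact mul_le_mul (hPQ i j).le (norm_le_pi_norm v j) (norm_nonneg _) (by positivity)
      _ = (m : ℝ) / ((m : ℝ) + 1) * (‖v‖ / 2) := by
          simp only [Finset.sum_const, Finset.card_univ, Fintype.card_fin, nsmul_eq_mul]
          field_simp
      _ ≤ 1 * (‖v‖ / 2) := by
          refine mul_le_mul_of_nonneg_right ?_ (by positivity)
          rw [div_le_one hm]
          linarith
      _ = ‖v‖ / 2 := one_mul _
  have h2 : ‖v‖ ≤ ‖v‖ / 2 := (pi_norm_le_iff_of_nonneg (by positivity)).2 h1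
  linarith

/-- A line bundle over a ball has a nowhere zero section. -/
theorem exists_sectionK {m : ℕ} {V : Type} [NormedAddCommGroup V] [NormedSpace ℝ V]
    [FiniteDimensional ℝ V]
    (P : V → Matrix (Fin m) (Fin m) K) (hPc : ContinuousOn P (Metric.closedBall 0 1))
    (hP : ∀ y ∈ Metric.closedBall (0 : V) 1, P y * P y = P y) (h0 : P 0 ≠ 0) :
    ∃ e : V → Fin m → K, ContinuousOn e (Metric.closedBall 0 1) ∧
      ∀ y ∈ Metric.closedBall (0 : V) 1, e y ≠ 0 ∧ P y *ᵥ e y = e y := by
  have : ProperSpace V := FiniteDimensional.proper ℝ V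
  set D := Metric.closedBall (0 : V) 1 with hD
  have hDc : IsCompact D := isCompact_closedBall 0 1
  have h0D : (0 : V) ∈ D := Metric.mem_closedBall_self zero_le_one
  have hsmul : ∀ (t : ℝ), 0 ≤ t → t ≤ 1 → ∀ y ∈ D, t • y ∈ D := by
    intro t h0 h1 y hy
    rw [hD, mem_closedBall_zero_iff] at hy ⊢
    rw [norm_smul, Real.norm_of_nonneg h0]
    nlinarith [norm_nonneg y]
  -- uniform continuity
  let P' : V → Fin m → Fin m → K := fun y i j => P y i j
  have hP'c : ContinuousOn P' D := hPc
  have huc := hDc.uniformContinuousOn_of_continuous hP'c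
  obtain ⟨δ, hδ, hun⟩ := Metric.uniformContinuousOn_iff.1 huc (1 / (2 * ((m : ℝ) + 1)))
    (by positivity)
  have hent : ∀ y ∈ D, ∀ y' ∈ D, dist y y' < δ → ∀ i j,
      ‖P y i j - P y' i j‖ < 1 / (2 * ((m : ℝ) + 1)) := by
    intro y hy y' hy' hd i j
    have h1 := hun y hy y' hy' hd
    have h2 : dist (P' y i j) (P' y' i j) ≤ dist (P' y) (P' y') :=
      (dist_le_pi_dist (P' y i) (P' y' i) j).trans (dist_le_pi_dist (P' y) (P' y') i)
    rw [dist_eq_norm] at h2
    exact lt_of_le_of_lt h2 h1
  obtain ⟨N, hN⟩ := exists_nat_one_div_lt hδ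
  have hN0 : (0 : ℝ) < (N : ℝ) + 1 := by positivity
  -- the initial vector
  obtain ⟨e₀, he₀, he₀'⟩ : ∃ e₀ : Fin m → K, e₀ ≠ 0 ∧ P 0 *ᵥ e₀ = e₀ := by
    obtain ⟨v, hv⟩ : ∃ v, P 0 *ᵥ v ≠ 0 := by
      by_contra hcon
      push Not at hcon
      apply h0
      ext i j
      have h1 := congrFun (hcon (Pi.single j 1)) i
      rw [mulVec_single_one] at h1
      exact h1
    exact ⟨P 0 *ᵥ v, hv, by rw [mulVec_mulVec, hP 0 h0D]⟩
  let E : ℕ → V → Fin m → K := fun j => Nat.rec (fun _ => e₀)
    (fun j F y => P ((((j : ℝ) + 1) / ((N : ℝ) + 1)) • y) *ᵥ F y) j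
  have hE0 : ∀ y, E 0 y = e₀ := fun y => rfl
  have hE1 : ∀ j y, E (j + 1) y = P ((((j : ℝ) + 1) / ((N : ℝ) + 1)) • y) *ᵥ E j y :=
    fun j y => rfl
  have key : ∀ j : ℕ, j ≤ N + 1 → ContinuousOn (E j) D ∧ ∀ y ∈ D, E j y ≠ 0 ∧
      P (((j : ℝ) / ((N : ℝ) + 1)) • y) *ᵥ E j y = E j y := by
    intro j
    induction j with
    | zero =>
      intro _
      refine ⟨continuousOn_const, fun y _ => ⟨he₀, ?_⟩⟩
      rw [hE0, Nat.cast_zero, zero_div, zero_smul]
      exact he₀'
    | succ j ih =>
      intro hj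
      obtain ⟨hc, hy⟩ := ih (by omega)
      have hj1 : (j : ℝ) + 1 ≤ (N : ℝ) + 1 := by exact_mod_cast hj
      have hj0 : (0 : ℝ) ≤ (j : ℝ) := Nat.cast_nonneg j
      have ht0 : 0 ≤ ((j : ℝ) + 1) / ((N : ℝ) + 1) := by positivity
      have ht1 : ((j : ℝ) + 1) / ((N : ℝ) + 1) ≤ 1 := (div_le_one hN0).2 hj1
      have hs0 : 0 ≤ (j : ℝ) / ((N : ℝ) + 1) := by positivity
      have hs1 : (j : ℝ) / ((N : ℝ) + 1) ≤ 1 := (div_le_one hN0).2 (by linarith)
      refine ⟨?_, fun y hyD => ⟨?_, ?_⟩⟩
      · have h1 : ContinuousOn (fun y => P ((((j : ℝ) + 1) / ((N : ℝ) + 1)) • y)) D :=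
          hPc.comp (continuous_const_smul _).continuousOn fun y hy => hsmul _ ht0 ht1 y hy
        have h2 : ContinuousOn (fun y => P ((((j : ℝ) + 1) / ((N : ℝ) + 1)) • y) *ᵥ E j y) D := by
          rw [continuousOn_pi]
          intro i
          simp only [mulVec, dotProduct]
          refine continuousOn_finsetSum _ fun k _ => ContinuousOn.mul ?_ ?_
          · exact (continuous_id.matrix_elem i k).comp_continuousOn h1
          · exact (continuous_apply k).comp_continuousOn hc
        exact h2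
      · rw [hE1]
        refine near_ne (hy y hyD).1 (hy y hyD).2 (hent _ (hsmul _ hs0 hs1 y hyD) _
          (hsmul _ ht0 ht1 y hyD) ?_)
        rw [dist_eq_norm, ← sub_smul, norm_smul]
        have h1 : (j : ℝ) / ((N : ℝ) + 1) - ((j : ℝ) + 1) / ((N : ℝ) + 1) =
            -(1 / ((N : ℝ) + 1)) := by
          rw [← sub_div]
          ring
        rw [h1, norm_neg, Real.norm_of_nonneg (by positivity)]
        rw [hD, mem_closedBall_zero_iff] at hyD
        calc 1 / ((N : ℝ) + 1) * ‖y‖ ≤ 1 / ((N : ℝ) + 1) * 1 :=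
              mul_le_mul_of_nonneg_left hyD (by positivity)
          _ < δ := by rw [mul_one]; exact hN
      · have h1 : (((j + 1 : ℕ) : ℝ) / ((N : ℝ) + 1)) = ((j : ℝ) + 1) / ((N : ℝ) + 1) := by
          push_cast
          rfl
        rw [h1, hE1, mulVec_mulVec, hP _ (hsmul _ ht0 ht1 y hyD)]
  obtain ⟨hc, hy⟩ := key (N + 1) le_rfl
  refine ⟨E (N + 1), hc, fun y hyD => ⟨(hy y hyD).1, ?_⟩⟩
  have h1 := (hy y hyD).2
  have h2 : (((N + 1 : ℕ) : ℝ) / ((N : ℝ) + 1)) = 1 := by
    push_cast
    exact div_self hN0.ne'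
  rwa [h2, one_smul] at h1

section Norm
variable {V : Type} [NormedAddCommGroup V] [NormedSpace ℝ V] [FiniteDimensional ℝ V]

/-- a cutoff -/
noncomputable def cut (y : V) : ℝ := max 0 (2 * ‖y‖ - 1)

theorem continuous_cut : Continuous (cut : V → ℝ) :=
  continuous_const.max ((continuous_const.mul continuous_norm).sub continuous_const)

theorem cut_one {y : V} (hy : ‖y‖ = 1) : cut y = 1 := by
  unfold cut
  rw [hy]
  norm_num

/-- a function on the punctured space times the cutoff is continuous -/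
theorem continuous_cut_smul {W : Type} [NormedAddCommGroup W] [NormedSpace ℝ W] {ζ : V → W}
    (hζ : ContinuousOn ζ {0}ᶜ) : Continuous fun y => cut y • ζ y := by
  rw [continuous_iff_continuousAt]
  intro y
  by_cases hy : y = 0
  · subst hy
    have h1 : (fun y : V => cut y • ζ y) =ᶠ[𝓝 (0 : V)] fun _ => 0 := by
      filter_upwards [Metric.ball_mem_nhds (0 : V) (by norm_num : (0 : ℝ) < 1 / 2)] with y hy
      rw [mem_ball_zero_iff] at hy
      unfold cut
      rw [max_eq_left (by linarith), zero_smul]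
    exact (continuousAt_const.congr h1.symm)
  · exact continuous_cut.continuousAt.smul (hζ.continuousAt (isOpen_compl_singleton.mem_nhds hy))

theorem compl_preconnected (hV : 2 ≤ finrank ℝ V) : IsPreconnected ({0}ᶜ : Set V) :=
  (isConnected_compl_singleton_of_one_lt_rank (by
    rw [← finrank_eq_rank]
    exact_mod_cast (by omega : 1 < finrank ℝ V)) 0).isPreconnected

/-- Normalisation of the transition function. -/
theorem exists_normal (hV : 3 ≤ finrank ℝ V) (lam : V → K)
    (hlc : ContinuousOn lam {0}ᶜ) (h0 : ∀ y, y ≠ 0 → lam y ≠ 0)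
    (h1 : ∀ y, y ≠ 0 → lam (-y) * lam y = 1) :
    ∃ μ : V → K, Continuous μ ∧ (∀ y, μ y ≠ 0) ∧
      ((∀ y, ‖y‖ = 1 → μ (-y) * lam y = μ y) ∨ ∀ y, ‖y‖ = 1 → μ (-y) * lam y = -μ y) := by
  have hcomp := compl_preconnected (V := V) (by omega)
  have : Nontrivial V := Module.nontrivial_of_finrank_pos (R := ℝ) (by omega)
  obtain ⟨b, hb⟩ := exists_ne (0 : V)
  rcases RCLike.I_eq_zero_or_im_I_eq_one (K := K) with hI | hI
  · -- the real case
    have hreal : ∀ z : K, z = ((RCLike.re z : ℝ) : K) := by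
      intro z
      conv_lhs => rw [← RCLike.re_add_im z, hI, mul_zero, add_zero]
    set l : V → ℝ := fun y => RCLike.re (lam y) with hl
    have hlam : ∀ y, lam y = ((l y : ℝ) : K) := fun y => hreal _
    have hl0 : ∀ y, y ≠ 0 → l y ≠ 0 := by
      intro y hy h
      apply h0 y hy
      rw [hlam, h, RCLike.ofReal_zero]
    have hlc' : ContinuousOn l {0}ᶜ := RCLike.continuous_re.comp_continuousOn hlc
    have hl1 : ∀ y, y ≠ 0 → l (-y) * l y = 1 := by
      intro y hy
      have h2 := h1 y hy
      rw [hlam, hlam, ← RCLike.ofReal_mul] at h2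
      exact_mod_cast h2
    have hζc : ContinuousOn (fun y => Real.log |l y|) {0}ᶜ :=
      ContinuousOn.log hlc'.abs fun y hy => abs_ne_zero.2 (hl0 y hy)
    have hmc := continuous_cut_smul hζc
    refine ⟨fun y => ((Real.exp ((cut y • Real.log |l y|) / 2) : ℝ) : K), ?_, ?_, ?_⟩
    · exact RCLike.continuous_ofReal.comp (Real.continuous_exp.comp (hmc.div_const 2))
    · intro y
      rw [Ne, RCLike.ofReal_eq_zero]
      exact (Real.exp_pos _).ne'
    · have hkey : ∀ y : V, ‖y‖ = 1 → Real.exp ((cut (-y) • Real.log |l (-y)|) / 2) * |l y| =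
          Real.exp ((cut y • Real.log |l y|) / 2) := by
        intro y hy
        have hy0 : y ≠ 0 := by
          intro h
          rw [h, norm_zero] at hy
          exact zero_ne_one hy
        rw [cut_one hy, cut_one (by rw [norm_neg, hy]), one_smul, one_smul]
        have h3 : |l (-y)| = |l y|⁻¹ := by
          rw [← abs_inv]
          congr 1
          exact eq_inv_of_mul_eq_one_left (hl1 y hy0)
        have h4 : 0 < |l y| := abs_pos.2 (hl0 y hy0)
        rw [h3, Real.log_inv]
        nth_rewrite 2 [← Real.exp_log h4]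
        rw [← Real.exp_add]
        congr 1
        ring
      have hsgn : (∀ y : V, y ≠ 0 → 0 < l y) ∨ ∀ y : V, y ≠ 0 → l y < 0 := by
        rcases lt_or_gt_of_ne (hl0 b hb) with h | h
        · right
          intro y hy
          by_contra hcon
          push Not at hcon
          obtain ⟨z, hz, hz0⟩ := hcomp.intermediate_value hb hy hlc' ⟨h.le, hcon⟩
          exact hl0 z hz hz0
        · left
          intro y hy
          by_contra hcon
          push Not at hcon
          obtain ⟨z, hz, hz0⟩ := hcomp.intermediate_value hy hb hlc' ⟨hcon, h.le⟩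
          exact hl0 z hz hz0
      rcases hsgn with h | h
      · left
        intro y hy
        have hy0 : y ≠ 0 := by
          intro h
          rw [h, norm_zero] at hy
          exact zero_ne_one hy
        have h3 := hkey y hy
        rw [abs_of_pos (h y hy0), abs_of_pos (h (-y) (neg_ne_zero.2 hy0))] at h3
        show ((Real.exp ((cut (-y) • Real.log |l (-y)|) / 2) : ℝ) : K) * lam y =
          ((Real.exp ((cut y • Real.log |l y|) / 2) : ℝ) : K)
        rw [hlam y, abs_of_pos (h y hy0), abs_of_pos (h (-y) (neg_ne_zero.2 hy0)), ← h3,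
          RCLike.ofReal_mul]
      · right
        intro y hy
        have hy0 : y ≠ 0 := by
          intro h
          rw [h, norm_zero] at hy
          exact zero_ne_one hy
        have h3 := hkey y hy
        rw [abs_of_neg (h y hy0)] at h3
        show ((Real.exp ((cut (-y) • Real.log |l (-y)|) / 2) : ℝ) : K) * lam y =
          -((Real.exp ((cut y • Real.log |l y|) / 2) : ℝ) : K)
        rw [hlam y, abs_of_neg (h y hy0), ← h3, RCLike.ofReal_mul, RCLike.ofReal_neg]
        ring
  · -- the complex case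
    set φ := RCLike.complexRingEquiv hI with hφ
    have hφc : Continuous φ := by
      have h2 : (φ : K → ℂ) = (RCLike.complexLinearIsometryEquiv hI) := rfl
      rw [h2]
      exact (RCLike.complexLinearIsometryEquiv hI).continuous
    have hψc : Continuous φ.symm := by
      have h2 : (φ.symm : ℂ → K) = (RCLike.complexLinearIsometryEquiv hI).symm := rfl
      rw [h2]
      exact (RCLike.complexLinearIsometryEquiv hI).symm.continuous
    obtain ⟨ζ, hζc, hζ⟩ := Pool.Agent.Helper17.CKF.exists_log_compl hV (fun y => φ (lam y))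
      (hφc.comp_continuousOn hlc) fun y hy => by
        intro h
        exact h0 y hy (φ.map_eq_zero_iff.1 h)
    have hdisc : IsDiscrete (AddSubgroup.zmultiples (2 * Real.pi * Complex.I) : Set ℂ) :=
      ⟨NormedSpace.discreteTopology_zmultiples (2 * Real.pi * Complex.I)⟩
    have hsum : ∀ y : V, y ≠ 0 → Complex.exp (ζ y + ζ (-y)) = 1 := by
      intro y hy
      rw [Complex.exp_add, hζ y hy, hζ (-y) (neg_ne_zero.2 hy), mul_comm, ← map_mul, h1 y hy,
        map_one]
    have hconst : ∀ y : V, y ≠ 0 → ζ y + ζ (-y) = ζ b + ζ (-b) := by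
      intro y hy
      refine hcomp.constant_of_mapsTo (f := fun y => ζ y + ζ (-y)) hdisc ?_ ?_ hy hb
      · exact hζc.add (hζc.comp continuous_neg.continuousOn fun y hy => neg_ne_zero.2 hy)
      · intro y hy
        obtain ⟨k, hk⟩ := Complex.exp_eq_one_iff.1 (hsum y hy)
        rw [SetLike.mem_coe, AddSubgroup.mem_zmultiples_iff]
        exact ⟨k, by rw [zsmul_eq_mul]; exact hk.symm⟩
    set κ := ζ b + ζ (-b) with hκ
    have hκ1 : Complex.exp (κ / 2) * Complex.exp (κ / 2) = 1 := by
      rw [← Complex.exp_add, add_halves]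
      exact hsum b hb
    have hmc := continuous_cut_smul hζc
    refine ⟨fun y => φ.symm (Complex.exp ((cut y • ζ y) / 2)), ?_, ?_, ?_⟩
    · exact hψc.comp (Complex.continuous_exp.comp (hmc.div_const 2))
    · intro y h
      exact Complex.exp_ne_zero _ (φ.symm.map_eq_zero_iff.1 h)
    · have hkey : ∀ y : V, ‖y‖ = 1 → φ.symm (Complex.exp ((cut (-y) • ζ (-y)) / 2)) * lam y =
          φ.symm (Complex.exp (κ / 2)) * φ.symm (Complex.exp ((cut y • ζ y) / 2)) := by
        intro y hy
        have hy0 : y ≠ 0 := by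
          intro h
          rw [h, norm_zero] at hy
          exact zero_ne_one hy
        rw [cut_one hy, cut_one (by rw [norm_neg, hy]), one_smul, one_smul]
        have h3 : lam y = φ.symm (Complex.exp (ζ y)) := by
          rw [hζ y hy0, RingEquiv.symm_apply_apply]
        rw [h3, ← map_mul, ← map_mul, ← Complex.exp_add, ← Complex.exp_add, ← hconst y hy0]
        congr 2
        ring
      have h2 : Complex.exp (κ / 2) = 1 ∨ Complex.exp (κ / 2) = -1 := mul_self_eq_one_iff.1 hκ1
      rcases h2 with h2 | h2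
      · left
        intro y hy
        show φ.symm (Complex.exp ((cut (-y) • ζ (-y)) / 2)) * lam y = _
        rw [hkey y hy, h2, map_one, one_mul]
      · right
        intro y hy
        show φ.symm (Complex.exp ((cut (-y) • ζ (-y)) / 2)) * lam y = _
        rw [hkey y hy, h2, map_neg, map_one, neg_one_mul]

end Norm

end Pool.Agent.Helper30.RT
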